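import Mathlib

set_option autoImplicit false

/-!
# Maximal strip recovery on two permutations: definitions
-/

namespace Pool.Agent.H688R2.MSR

/-- `S₁` and `S₂` admit a common strip partition: `S₁` is the concatenation of a list of blocks of
length at least two, and `S₂` is the concatenation of the same blocks in some order. -/
def CommonStripPartition (S₁ S₂ : List ℕ) : Prop :=
  ∃ B B' : List (List ℕ), (∀ b ∈ B, 2 ≤ b.length) ∧ B'.Perm B ∧ S₁ = B.flatten ∧ S₂ = B'.flatten

/-- Maximal strip recovery: the genomes `G₁`, `G₂` have subsequences with a common strip partition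
which retain at least `k` characters. -/
def StripRecovery (G₁ G₂ : List ℕ) (k : ℕ) : Prop :=
  ∃ S₁ S₂ : List ℕ, S₁.Sublist G₁ ∧ S₂.Sublist G₂ ∧ CommonStripPartition S₁ S₂ ∧ k ≤ S₁.length

end Pool.Agent.H688R2.MSR
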