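import Pool.Agent.H688R2.MSR.PolyM
import Pool.Agent.H688R2.MSR.Core
import Pool.Agent.H628R2.FPTW

set_option autoImplicit false

/-!
# Maximal strip recovery on two permutations is fixed-parameter tractable
-/

namespace Pool.Agent.H688R2.MSR

open Pool.Agent.NPC

/-- the effective parameter -/
def kap (a : List ℕ × List ℕ × ℕ) : ℕ := min a.2.2 (a.1.length + 1)

theorem u_kap : UPoly kap := by
  refine UPoly.of_le (n := fun a => a.1.length + 1)
    (Poly.min (Poly.snd (Poly.snd Poly.id)) (Poly.length (Poly.fst Poly.id)).succ)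
    (UPoly.add (UPoly.length (Poly.fst Poly.id)) (UPoly.const 1)) fun a => ?_
  exact Nat.min_le_right _ _

/-- the exponent -/
def expo (k : ℕ) : ℕ := (k + 3) * (k + 1)

theorem primrec_expo : Primrec expo := by
  have hid : Primrec (fun t : ℕ => t) := Primrec.id
  exact Primrec.nat_mul.comp (Primrec.nat_add.comp hid (Primrec.const 3))
    (Primrec.nat_add.comp hid (Primrec.const 1))

theorem expo_le (k : ℕ) : (k + 3) ^ (k + 1) ≤ 2 ^ expo k := by
  rw [expo, pow_mul]
  exact Nat.pow_le_pow_left Nat.lt_two_pow_self.le _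

theorem msr_fpt0 : ∃ (tm : Turing.FinTM2) (e₀ : tm.Γ tm.k₀ ≃ Bool) (e₁ : tm.Γ tm.k₁ ≃ Bool)
    (f : ℕ → ℕ) (c : ℕ), Computable f ∧ ∀ a : List ℕ × List ℕ × ℕ,
      Nonempty (Turing.TM2OutputsInTime tm ((bits a).map e₀.invFun)
        (some ((bits (msr a)).map e₁.invFun))
        (f (kap a) * ((bits a).length + 1) ^ c)) := by
  refine fpt_tm msr kap expo primrec_expo ?_ ?_
  · exact UPoly.mul (UPoly.add u_kap (UPoly.const 3)) (UPoly.add u_kap (UPoly.const 1))
  · have hv := Poly.val (fun x : (List ℕ × List ℕ × ℕ) × List Unit =>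
        2 ^ (expo (kap x.1)) ≤ x.2.length)
    have h1 := Poly.fst hv
    unfold msr
    refine Poly.and (Poly.decide_le (Poly.snd (Poly.snd h1)) (Poly.length (Poly.fst h1))) ?_
    refine p_solve (N := fun x => x.1.2.length) (p_ysOf (Poly.fst h1) (Poly.fst (Poly.snd h1)))
      (u_kap.comp h1) (UPoly.length (Poly.snd hv)) fun a => ?_
    exact (expo_le _).trans a.2

/-- running maximum -/
def runMax (f : ℕ → ℕ) (k : ℕ) : ℕ := Nat.rec (f 0) (fun n m => max m (f (n + 1))) k

theorem le_runMax (f : ℕ → ℕ) {j k : ℕ} (h : j ≤ k) : f j ≤ runMax f k := by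
  induction k with
  | zero => obtain rfl : j = 0 := by omega
            exact le_refl _
  | succ k ih =>
    rcases Nat.lt_or_ge k j with h1 | h1
    · obtain rfl : j = k + 1 := by omega
      exact le_max_right _ _
    · exact (ih h1).trans (le_max_left _ _)

theorem computable_runMax {f : ℕ → ℕ} (hf : Computable f) : Computable (runMax f) := by
  have h : Computable₂ (fun (_ : ℕ) (p : ℕ × ℕ) => max p.2 (f (p.1 + 1))) := by
    have h1 : Computable (fun x : ℕ × ℕ × ℕ => f (x.2.1 + 1)) :=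
      hf.comp (Computable.succ.comp (Computable.fst.comp Computable.snd))
    exact (Primrec.nat_max.to_comp).comp (Computable.snd.comp Computable.snd) h1
  exact Computable.nat_rec Computable.id (Computable.const (f 0)) h

theorem msr_fpt : ∃ (tm : Turing.FinTM2) (e₀ : tm.Γ tm.k₀ ≃ Bool) (e₁ : tm.Γ tm.k₁ ≃ Bool)
    (f : ℕ → ℕ) (c : ℕ), Computable f ∧ ∀ (G₁ G₂ : List ℕ) (k : ℕ),
      Nonempty (Turing.TM2OutputsInTime tm ((bits (G₁, G₂, k)).map e₀.invFun)
        (some ((bits (msr (G₁, G₂, k))).map e₁.invFun))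
        (f k * ((bits (G₁, G₂, k)).length + 1) ^ c)) := by
  obtain ⟨tm, e₀, e₁, f, c, hf, h⟩ := msr_fpt0
  refine ⟨tm, e₀, e₁, runMax f, c, computable_runMax hf, fun G₁ G₂ k => ?_⟩
  obtain ⟨h'⟩ := h (G₁, G₂, k)
  refine ⟨outputs_conv rfl rfl ?_ h'⟩
  exact Nat.mul_le_mul_right _ (le_runMax f (Nat.min_le_left _ _))

end Pool.Agent.H688R2.MSR
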