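import Pool.Agent.H688R2.MSR.Alg

set_option autoImplicit false

namespace Pool.Agent.H688R2.MSR

variable {ys : List ℕ}

lemma mem_next {L : List ℕ} {x : ℕ} : x ∈ next ys L ↔
    x < ys.length ∧ ∃ x' ∈ L, x' < x ∧ ys.getD x' 0 < ys.getD x 0 := by
  simp [next]

lemma mem_lev_succ {t x : ℕ} : x ∈ lev ys (t + 1) ↔
    x < ys.length ∧ ∃ x' ∈ lev ys t, x' < x ∧ ys.getD x' 0 < ys.getD x 0 := mem_next

lemma lev_lt {t x : ℕ} (h : x ∈ lev ys t) : x < ys.length := by
  cases t with
  | zero => simpa [lev] using h
  | succ t => exact (mem_lev_succ.1 h).1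

lemma lev_anti (t : ℕ) : ∀ x, x ∈ lev ys (t + 1) → x ∈ lev ys t := by
  induction t with
  | zero => intro x h; simpa [lev] using lev_lt h
  | succ t ih =>
    intro x h
    obtain ⟨h1, x', h2, h3⟩ := mem_lev_succ.1 h
    exact mem_lev_succ.2 ⟨h1, x', ih x' h2, h3⟩

lemma lev_anti_le {s t x : ℕ} (hst : s ≤ t) (h : x ∈ lev ys t) : x ∈ lev ys s := by
  induction t with
  | zero =>
    have : s = 0 := by omega
    subst this; exact h
  | succ t ih =>
    rcases Nat.lt_or_ge t s with h1 | h1
    · have : s = t + 1 := by omega
      subst this; exact h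
    · exact ih h1 (lev_anti t x h)

/-- an element of level `t` ends a chain with `t + 1` elements -/
lemma chain_of_lev (t : ℕ) : ∀ x, x ∈ lev ys t → ∃ c : List ℕ, (x :: c).length = t + 1 ∧
    (x :: c).Pairwise (fun a b => b < a ∧ ys.getD b 0 < ys.getD a 0) ∧
    ∀ a ∈ x :: c, a < ys.length := by
  induction t with
  | zero =>
    intro x h
    exact ⟨[], rfl, by simp, by simpa using lev_lt h⟩
  | succ t ih =>
    intro x h
    obtain ⟨h1, x', h2, h3, h4⟩ := mem_lev_succ.1 h
    obtain ⟨c, hc1, hc2, hc3⟩ := ih x' h2
    refine ⟨x' :: c, by simpa using hc1, ?_, ?_⟩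
    · rw [List.pairwise_cons]
      refine ⟨fun a ha => ?_, hc2⟩
      rcases List.mem_cons.1 ha with rfl | ha
      · exact ⟨h3, h4⟩
      · have := (List.pairwise_cons.1 hc2).1 a ha
        exact ⟨this.1.trans h3, this.2.trans h4⟩
    · intro a ha
      rcases List.mem_cons.1 ha with rfl | ha
      · exact h1
      · exact hc3 a ha

lemma levs_eq (K : ℕ) : levs ys K = ((List.range (K + 1)).map (lev ys)).reverse := by
  have key : ∀ m, (List.range m).foldl (fun acc _ => next ys (acc.headD []) :: acc)
      [List.range ys.length] = ((List.range (m + 1)).map (lev ys)).reverse := by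
    intro m
    induction m with
    | zero => simp [lev]
    | succ m ih =>
      rw [List.range_succ, List.foldl_append, ih]
      simp only [List.foldl_cons, List.foldl_nil]
      rw [List.range_succ (n := m + 1), List.map_append, List.reverse_append]
      have : ((List.map (lev ys) (List.range (m + 1))).reverse).headD [] = lev ys m := by
        rw [List.range_succ, List.map_append, List.reverse_append]; rfl
      rw [this]
      rfl
  exact key K

lemma levs_head (K : ℕ) : (levs ys K).headD [] = lev ys K := by
  rw [levs_eq, List.range_succ, List.map_append, List.reverse_append]; rfl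

lemma rk_eq (K x : ℕ) : rk (levs ys K) x =
    ((List.range (K + 1)).filter (fun t => decide (x ∈ lev ys t))).length := by
  rw [rk, levs_eq, List.filter_reverse, List.length_reverse, List.filter_map, List.length_map]
  rfl

lemma cnt_spec (x : ℕ) (m : ℕ) :
    ((List.range m).filter (fun t => decide (x ∈ lev ys t))).length ≤ m ∧ ∀ t < m,
      (x ∈ lev ys t ↔ t < ((List.range m).filter (fun t => decide (x ∈ lev ys t))).length) := by
  induction m with
  | zero => simp
  | succ m ih =>
    rw [List.range_succ, List.filter_append, List.length_append]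
    by_cases h : x ∈ lev ys m
    · have h1 : ((List.range m).filter (fun t => decide (x ∈ lev ys t))) = List.range m := by
        rw [List.filter_eq_self]
        intro t ht
        rw [List.mem_range] at ht
        simpa using lev_anti_le ht.le h
      rw [h1]
      simp only [List.length_range, List.filter_cons, h, decide_true, if_true, List.filter_nil,
        List.length_cons, List.length_nil]
      refine ⟨by omega, fun t ht => ?_⟩
      exact ⟨fun _ => by omega, fun _ => lev_anti_le (by omega) h⟩
    · have h2 : ([m].filter (fun t => decide (x ∈ lev ys t))).length = 0 := by simp [h]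
      rw [h2]
      refine ⟨by omega, fun t ht => ?_⟩
      rcases Nat.lt_or_ge t m with h3 | h3
      · simpa using ih.2 t h3
      · have : t = m := by omega
        subst this
        have := ih.1
        constructor
        · intro h4; exact absurd h4 h
        · intro h4; omega

lemma rk_le (K x : ℕ) : rk (levs ys K) x ≤ K + 1 := by
  rw [rk_eq]; exact (cnt_spec x (K + 1)).1

lemma rk_iff {K x t : ℕ} (ht : t ≤ K) : x ∈ lev ys t ↔ t < rk (levs ys K) x := by
  rw [rk_eq]; exact (cnt_spec x (K + 1)).2 t (by omega)

/-- positions of equal rank are decreasing -/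
lemma class_decr {K x x' : ℕ} (hx : x < x') (hx' : x' < ys.length) (hK : lev ys K = [])
    (h : rk (levs ys K) x = rk (levs ys K) x') : ys.getD x' 0 ≤ ys.getD x 0 := by
  by_contra hlt
  push Not at hlt
  have hr : ¬ K < rk (levs ys K) x := by
    rw [← rk_iff le_rfl, hK]; simp
  have h0 : 0 < rk (levs ys K) x := by
    rw [← rk_iff (Nat.zero_le _)]
    simp [lev]; omega
  obtain ⟨r, hr1⟩ : ∃ r, rk (levs ys K) x = r + 1 := ⟨rk (levs ys K) x - 1, by omega⟩
  have h1 : x ∈ lev ys r := (rk_iff (K := K) (by omega)).2 (by omega)
  have h2 : x' ∈ lev ys (r + 1) := mem_lev_succ.2 ⟨hx', x, h1, hx, hlt⟩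
  have h3 := (rk_iff (K := K) (by omega)).1 h2
  omega

lemma rk_lt {K x : ℕ} (hK : lev ys K = []) : rk (levs ys K) x ≤ K := by
  have hr : ¬ K < rk (levs ys K) x := by
    rw [← rk_iff le_rfl, hK]; simp
  omega

lemma ranks_getD {k x : ℕ} (hx : x < ys.length) :
    (ranks ys k).getD x 0 = rk (levs ys (k + 1)) x := by
  simp [ranks, List.getD_eq_getElem?_getD, hx]

end Pool.Agent.H688R2.MSR
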