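import Pool.Agent.H688R2.MSR.Alg

set_option autoImplicit false

namespace Pool.Agent.H688R2.MSR

lemma pos_eq {l₁ l₂ : List ℕ} {c : ℕ} (h1 : c ∉ l₁) (h2 : c ∉ l₂) :
    pos (l₁ ++ c :: l₂) c = l₁.length := by
  have key : ∀ (l : List ℕ) (n : ℕ), c ∉ l →
      (l.zipIdx n).filter (fun p => decide (p.1 = c)) = [] := by
    intro l n h
    rw [List.filter_eq_nil_iff]
    rintro ⟨a, i⟩ ha
    have := List.mem_zipIdx ha
    simp only [decide_eq_true_eq]
    rintro rfl
    apply h
    rw [this.2.2]
    exact List.getElem_mem _
  rw [pos, List.zipIdx_append, List.zipIdx_cons, List.filter_append, List.filter_cons, key l₁ 0 h1,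
    key l₂ _ h2]
  simp

lemma pos_spec {G : List ℕ} (hG : G.Nodup) {c : ℕ} (hc : c ∈ G) :
    pos G c < G.length ∧ G.getD (pos G c) 0 = c := by
  obtain ⟨l₁, l₂, rfl⟩ := List.append_of_mem hc
  have h := List.nodup_append.1 hG
  have h1 : c ∉ l₁ := fun h' => h.2.2 c h' c (by simp) rfl
  have h2 : c ∉ l₂ := (List.nodup_cons.1 h.2.1).1
  rw [pos_eq h1 h2]
  simp [List.getD_eq_getElem?_getD]

lemma pos_getElem {G : List ℕ} (hG : G.Nodup) {i : ℕ} (hi : i < G.length) : pos G G[i] = i := by
  obtain ⟨h1, h2⟩ := pos_spec hG (List.getElem_mem hi)
  rw [List.getD_eq_getElem?_getD, List.getElem?_eq_getElem h1, Option.getD_some] at h2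
  exact (List.Nodup.getElem_inj_iff hG).1 h2

lemma map_pos {G : List ℕ} (hG : G.Nodup) : G.map (pos G) = List.range G.length := by
  apply List.ext_getElem
  · simp
  · intro i h1 h2
    rw [List.getElem_map, List.getElem_range]
    exact pos_getElem hG _

lemma map_pos_pairwise {G S : List ℕ} (hG : G.Nodup) (hS : S.Sublist G) :
    (S.map (pos G)).Pairwise (· < ·) := by
  have h1 : (S.map (pos G)).Sublist (List.range G.length) := by
    rw [← map_pos hG]; exact hS.map _
  exact List.Pairwise.sublist h1 List.pairwise_lt_range

lemma filter_interval (a b : ℕ) (hab : a ≤ b) : ∀ M, b ≤ M →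
    (List.range M).filter (fun i => decide (a ≤ i) && decide (i < b)) = List.range' a (b - a) := by
  intro M
  induction M with
  | zero => intro h; simp; omega
  | succ M ih =>
    intro h
    rw [List.range_succ, List.filter_append]
    rcases Nat.lt_or_ge M b with h1 | h1
    · have hb : b = M + 1 := by omega
      subst hb
      rcases Nat.lt_or_ge M a with h2 | h2
      · have ha : a = M + 1 := by omega
        subst ha
        simp only [Nat.sub_self, List.range'_zero, List.append_eq_nil_iff, List.filter_eq_nil_iff,
          List.mem_range, Bool.and_eq_true, decide_eq_true_eq, List.mem_singleton, forall_eq]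
        exact ⟨fun i hi => by omega, by omega⟩
      · have h3 : (List.range M).filter (fun i => decide (a ≤ i) && decide (i < M + 1)) =
            List.range' a (M - a) := by
          clear ih
          have : ∀ N, N ≤ M → a ≤ N → (List.range N).filter
              (fun i => decide (a ≤ i) && decide (i < M + 1)) = List.range' a (N - a) := by
            intro N
            induction N with
            | zero => intro _ h; simp
            | succ N ih =>
              intro hN ha
              rw [List.range_succ, List.filter_append]
              rcases Nat.lt_or_ge N a with h4 | h4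
              · have : a = N + 1 := by omega
                subst this
                simp only [Nat.sub_self, List.range'_zero, List.append_eq_nil_iff,
                  List.filter_eq_nil_iff, List.mem_range, Bool.and_eq_true, decide_eq_true_eq,
                  List.mem_singleton, forall_eq]
                exact ⟨fun i hi => by omega, by omega⟩
              · rw [ih (by omega) h4, show N + 1 - a = (N - a) + 1 by omega,
                  List.range'_1_concat]
                have : ([N].filter (fun i => decide (a ≤ i) && decide (i < M + 1))) = [N] := by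
                  simp; omega
                rw [this]
                congr 2
                omega
          exact this M le_rfl h2
        rw [h3, show M + 1 - a = (M - a) + 1 by omega, List.range'_1_concat]
        have : ([M].filter (fun i => decide (a ≤ i) && decide (i < M + 1))) = [M] := by
          simp; omega
        rw [this]
        congr 2
        omega
    · rw [ih h1]
      have : ([M].filter (fun i => decide (a ≤ i) && decide (i < b))) = [] := by
        simp; omega
      rw [this, List.append_nil]

lemma sum_take_succ' (ls : List ℕ) (b : ℕ) :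
    (ls.take (b + 1)).sum = (ls.take b).sum + ls.getD b 0 := by
  rw [List.take_add_one, List.sum_append, List.getD_eq_getElem?_getD]
  congr 1
  cases ls[b]? <;> simp

lemma sum_take_le' (ls : List ℕ) (b : ℕ) : (ls.take b).sum ≤ ls.sum := by
  conv_rhs => rw [← List.take_append_drop b ls, List.sum_append]
  omega

lemma blk_eq {ls : List ℕ} {M b : ℕ} (h : ls.sum ≤ M) :
    blk ls M b = List.range' (ls.take b).sum (ls.getD b 0) := by
  have h1 := sum_take_succ' ls b
  have h2 := sum_take_le' ls (b + 1)
  rw [blk, filter_interval _ _ (by omega) M (by omega)]
  congr 1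
  omega

lemma flatMap_blk {ls : List ℕ} {M : ℕ} (h : ls.sum ≤ M) (m : ℕ) :
    (List.range m).flatMap (blk ls M) = List.range (ls.take m).sum := by
  induction m with
  | zero => simp
  | succ m ih =>
    rw [List.range_succ, List.flatMap_append, ih, sum_take_succ']
    simp only [List.flatMap_cons, List.flatMap_nil, List.append_nil]
    rw [blk_eq h, List.range_eq_range', List.range_eq_range', ← List.range'_append_1, Nat.zero_add]

/-- increasing positions give a subsequence -/
lemma sublist_of_increasing {G L : List ℕ} (hL : L.Pairwise (· < ·)) (hlt : ∀ x ∈ L, x < G.length) :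
    (L.map (fun x => G.getD x 0)).Sublist G := by
  have h1 : L.Sublist (List.range G.length) := by
    have hsub : L.Subperm (List.range G.length) :=
      List.subperm_of_subset (hL.imp (fun h => ne_of_lt h)) (fun x hx => List.mem_range.2 (hlt x hx))
    exact List.sublist_of_subperm_of_pairwise hsub hL List.pairwise_lt_range
  have h2 : (List.range G.length).map (fun x => G.getD x 0) = G := by
    apply List.ext_getElem
    · simp
    · intro i h3 h4
      simp [List.getD_eq_getElem?_getD, h4]
  conv_rhs => rw [← h2]
  exact h1.map _

lemma zip_tail_iff (R : ℕ → ℕ → Prop) : ∀ l : List ℕ,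
    (∀ c ∈ l.zip l.tail, R c.1 c.2) ↔ l.IsChain R := by
  intro l
  induction l with
  | nil => simp
  | cons a l ih =>
    cases l with
    | nil => simp
    | cons b l =>
      rw [List.isChain_cons_cons, ← ih]
      simp only [List.tail_cons, List.zip_cons_cons, List.mem_cons, forall_eq_or_imp]

lemma perm_map {α β : Type} (f : α → β) {l' l₁ : List β} (h : l'.Perm l₁) :
    ∀ l : List α, l₁ = l.map f → ∃ l₂ : List α, l₂.Perm l ∧ l' = l₂.map f := by
  induction h with
  | nil =>
    intro l hl
    refine ⟨[], ?_, rfl⟩
    have : l = [] := by simpa using hl.symm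
    subst this; exact List.Perm.nil
  | cons x h ih =>
    intro l hl
    cases l with
    | nil => simp at hl
    | cons y ys =>
      simp only [List.map_cons, List.cons.injEq] at hl
      obtain ⟨l₂, h1, h2⟩ := ih ys hl.2
      exact ⟨y :: l₂, h1.cons y, by simp [hl.1, h2]⟩
  | swap x y l0 =>
    intro l hl
    match l, hl with
    | a :: b :: ls, hl =>
      simp only [List.map_cons, List.cons.injEq] at hl
      exact ⟨b :: a :: ls, List.Perm.swap _ _ _, by simp [hl.1, hl.2.1, hl.2.2]⟩
  | trans h1 h2 ih1 ih2 =>
    intro l hl
    obtain ⟨l₂, h3, h4⟩ := ih2 l hl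
    obtain ⟨l₃, h5, h6⟩ := ih1 l₂ h4
    exact ⟨l₃, h5.trans h3, h6⟩

lemma exists_order {B B' : List (List ℕ)} (h : B'.Perm B) :
    ∃ π : List ℕ, π.Perm (List.range B.length) ∧ B' = π.map (fun b => B.getD b []) := by
  apply perm_map _ h
  apply List.ext_getElem
  · simp
  · intro i h3 h4
    simp [List.getD_eq_getElem?_getD, h3]

/-- shorten a solution -/
lemma trim {G₁ G₂ : List ℕ} {k : ℕ} : ∀ N : ℕ, ∀ B B' : List (List ℕ),
    (∀ b ∈ B, 2 ≤ b.length) → B'.Perm B → B.flatten.Sublist G₁ → B'.flatten.Sublist G₂ →
    k ≤ B.flatten.length → B.flatten.length ≤ N →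
    ∃ B B' : List (List ℕ), (∀ b ∈ B, 2 ≤ b.length) ∧ B'.Perm B ∧ B.flatten.Sublist G₁ ∧
      B'.flatten.Sublist G₂ ∧ k ≤ B.flatten.length ∧ B.flatten.length ≤ k + 1 := by
  intro N
  induction N with
  | zero =>
    intro B B' h1 h2 h3 h4 h5 h6
    exact ⟨B, B', h1, h2, h3, h4, h5, by omega⟩
  | succ N ih =>
    intro B B' h1 h2 h3 h4 h5 h6
    by_cases hk : B.flatten.length ≤ k + 1
    · exact ⟨B, B', h1, h2, h3, h4, h5, hk⟩
    · cases B with
      | nil => simp at hk
      | cons b R =>
        have hb : b ∈ B' := h2.mem_iff.2 (by simp)
        obtain ⟨L, R', rfl⟩ := List.append_of_mem hb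
        have hp : (L ++ R').Perm R := by
          have : (b :: (L ++ R')).Perm (b :: R) := (List.perm_middle.symm).trans h2
          exact this.cons_inv
        have hb2 := h1 b (by simp)
        have hlen : (b :: R).flatten.length = b.length + R.flatten.length := by simp
        rcases Nat.lt_or_ge b.length 3 with hb3 | hb3
        · refine ih R (L ++ R') (fun c hc => h1 c (by simp [hc])) hp ?_ ?_ (by omega) (by omega)
          · refine List.Sublist.trans ?_ h3
            rw [List.flatten_cons]; exact List.sublist_append_right _ _
          · refine List.Sublist.trans ?_ h4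
            rw [List.flatten_append, List.flatten_append, List.flatten_cons]
            exact List.Sublist.append (List.Sublist.refl _) (List.sublist_append_right _ _)
        · have htl : b.tail.Sublist b := List.tail_sublist b
          have htlen : b.tail.length = b.length - 1 := List.length_tail
          refine ih (b.tail :: R) (L ++ b.tail :: R') ?_ ?_ ?_ ?_ ?_ ?_
          · intro c hc
            rcases List.mem_cons.1 hc with rfl | hc
            · omega
            · exact h1 c (by simp [hc])
          · exact List.perm_middle.trans (hp.cons _)
          · refine List.Sublist.trans ?_ h3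
            rw [List.flatten_cons, List.flatten_cons]
            exact List.Sublist.append htl (List.Sublist.refl _)
          · refine List.Sublist.trans ?_ h4
            rw [List.flatten_append, List.flatten_append, List.flatten_cons, List.flatten_cons]
            exact List.Sublist.append (List.Sublist.refl _)
              (List.Sublist.append htl (List.Sublist.refl _))
          · rw [List.flatten_cons, List.length_append, htlen]; omega
          · rw [List.flatten_cons, List.length_append, htlen]; omega

end Pool.Agent.H688R2.MSR
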